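import Mathlib

set_option autoImplicit false

/-!
# The numerator of the generating function of the chromatic polynomial is nonnegative

The numbers of proper colourings are sums of binomial coefficients over all orderings of the
vertex set (strict `P`-partitions of the acyclic orientations).
-/

namespace Pool.Agent.Q281.Chrom

open Finset

open Classical in
/-- weakly increasing sequences of length `d + 1` in `[0, n)`, strictly increasing at `s` -/
noncomputable def W (d n : ℕ) (s : Fin d → Prop) : Finset (Fin (d + 1) → ℕ) :=
  (Fintype.piFinset (fun _ => range n)).filter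
    (fun c => ∀ k : Fin d, c k.castSucc ≤ c k.succ ∧ (s k → c k.castSucc < c k.succ))

theorem mem_W {d n : ℕ} {s : Fin d → Prop} {c : Fin (d + 1) → ℕ} :
    c ∈ W d n s ↔ (∀ i, c i < n) ∧
      ∀ k : Fin d, c k.castSucc ≤ c k.succ ∧ (s k → c k.castSucc < c k.succ) := by
  simp [W, Fintype.mem_piFinset]

theorem hockey (a k n : ℕ) : ∑ m ∈ range n, (m + a).choose k + a.choose (k + 1) =
    (n + a).choose (k + 1) := by
  induction n with
  | zero => simp
  | succ n ih =>
    rw [sum_range_succ, show n + 1 + a = (n + a) + 1 by ring, Nat.choose_succ_succ, ← ih]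
    ring

open Classical in
theorem card_W (d : ℕ) : ∀ (n : ℕ) (s : Fin d → Prop),
    (W d n s).card = (n + d - (univ.filter s).card).choose (d + 1) := by
  induction d with
  | zero =>
    intro n s
    have h1 : W 0 n s = Fintype.piFinset (fun _ => range n) := by
      ext c
      simp [mem_W, Fintype.mem_piFinset]
    rw [h1, Fintype.card_piFinset]
    simp
  | succ d ih =>
    intro n s
    set s' : Fin d → Prop := fun k => s k.castSucc with hs'
    set w : ℕ := if s (Fin.last d) then 0 else 1 with hw
    have hcard : (univ.filter s).card + w = (univ.filter s').card + 1 := by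
      have h1 := Fin.sum_univ_castSucc (fun k : Fin (d + 1) => if s k then 1 else 0)
      rw [← card_filter, ← card_filter (fun k : Fin d => s k.castSucc)] at h1
      rw [h1, hw]
      split_ifs <;> simp [hs']
    have hle : (univ.filter s').card ≤ d := by
      have := card_le_univ (univ.filter s')
      simpa using this
    have hfib : ∀ m ∈ range n, ((W (d + 1) n s).filter (fun c => c (Fin.last (d + 1)) = m)).card =
        (W d (m + w) s').card := by
      intro m hm
      rw [mem_range] at hm
      refine card_nbij' (fun c => fun i => c i.castSucc)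
        (fun c => (Fin.snoc c m : Fin (d + 1 + 1) → ℕ)) ?_ ?_ ?_ ?_
      · intro c hc
        rw [mem_coe, mem_filter, mem_W] at hc
        obtain ⟨⟨h1, h2⟩, h3⟩ := hc
        rw [mem_coe, mem_W]
        have hmono : Monotone c := Fin.monotone_iff_le_succ.2 (fun i => (h2 i).1)
        refine ⟨fun i => ?_, fun k => h2 k.castSucc⟩
        beta_reduce
        have h4 := h2 (Fin.last d)
        have h5 : c i.castSucc ≤ c (Fin.last d).castSucc :=
          hmono (Fin.castSucc_le_castSucc_iff.2 (Fin.le_last i))
        have h6 : (Fin.last d).succ = Fin.last (d + 1) := rfl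
        rw [h6, h3] at h4
        rw [hw]
        split_ifs with h
        · have := h4.2 h
          omega
        · have := h4.1
          omega
      · intro c hc
        rw [mem_coe, mem_W] at hc
        obtain ⟨h1, h2⟩ := hc
        rw [mem_coe, mem_filter, mem_W]
        beta_reduce
        refine ⟨⟨fun i => ?_, fun k => ?_⟩, Fin.snoc_last _ _⟩
        · refine Fin.lastCases ?_ (fun j => ?_) i
          · rw [Fin.snoc_last]; exact hm
          · rw [Fin.snoc_castSucc]
            have := h1 j
            rw [hw] at this
            split_ifs at this <;> omega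
        · refine Fin.lastCases ?_ (fun j => ?_) k
          · have h6 : (Fin.last d).succ = Fin.last (d + 1) := rfl
            rw [h6, Fin.snoc_last, Fin.snoc_castSucc]
            have := h1 (Fin.last d)
            rw [hw] at this
            split_ifs at this with h
            · exact ⟨by omega, fun _ => by omega⟩
            · exact ⟨by omega, fun h' => absurd h' h⟩
          · rw [Fin.succ_castSucc, Fin.snoc_castSucc, Fin.snoc_castSucc]
            exact h2 j
      · intro c hc
        rw [mem_coe, mem_filter] at hc
        funext i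
        refine Fin.lastCases ?_ (fun j => ?_) i
        · simp only [Fin.snoc_last]
          exact hc.2.symm
        · simp only [Fin.snoc_castSucc]
      · intro c hc
        funext i
        simp only [Fin.snoc_castSucc]
    have hmaps : ∀ c ∈ W (d + 1) n s, c (Fin.last (d + 1)) ∈ range n := by
      intro c hc
      rw [mem_W] at hc
      exact mem_range.2 (hc.1 _)
    rw [card_eq_sum_card_fiberwise hmaps, sum_congr rfl hfib]
    have h7 : ∀ m ∈ range n, (W d (m + w) s').card =
        (m + (w + d - (univ.filter s').card)).choose (d + 1) := by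
      intro m _
      rw [ih]
      congr 1
      omega
    rw [sum_congr rfl h7]
    have h8 := hockey (w + d - (univ.filter s').card) (d + 1) n
    have h9 : (w + d - (univ.filter s').card).choose (d + 1 + 1) = 0 := by
      apply Nat.choose_eq_zero_of_lt
      have : w ≤ 1 := by rw [hw]; split_ifs <;> omega
      omega
    rw [h9, add_zero] at h8
    rw [h8]
    congr 1
    omega

set_option linter.unusedSectionVars false

variable {V : Type} [Fintype V]

open Classical in
/-- proper colourings with colours in `[0, n)` -/
noncomputable def colo (G : SimpleGraph V) (n : ℕ) : Finset (V → ℕ) :=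
  (Fintype.piFinset (fun _ => range n)).filter (fun φ => ∀ u v, G.Adj u v → φ u ≠ φ v)

theorem mem_colo {G : SimpleGraph V} {n : ℕ} {φ : V → ℕ} :
    φ ∈ colo G n ↔ (∀ v, φ v < n) ∧ ∀ u v, G.Adj u v → φ u ≠ φ v := by
  classical
  simp [colo, Fintype.mem_piFinset]

open Classical in
/-- an injective order-reversing numbering of an acyclic relation -/
noncomputable def tau (r : V → V → Prop) : V → ℕ :=
  if h : ∃ f : V → ℕ, Function.Injective f ∧ ∀ u v, r u v → f v < f u then h.choose else fun _ => 0

theorem tau_spec (r : V → V → Prop)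
    (h : ∃ f : V → ℕ, Function.Injective f ∧ ∀ u v, r u v → f v < f u) :
    Function.Injective (tau r) ∧ ∀ u v, r u v → tau r v < tau r u := by
  rw [tau, dif_pos h]
  exact h.choose_spec

/-- orientation of `G` by a colouring -/
def rc (G : SimpleGraph V) (φ : V → ℕ) : V → V → Prop := fun u v => G.Adj u v ∧ φ u < φ v

/-- orientation of `G` by an ordering -/
def rp (G : SimpleGraph V) {e : ℕ} (π : Fin (e + 1) ≃ V) : V → V → Prop :=
  fun u v => G.Adj u v ∧ π.symm u < π.symm v

theorem tau_rp (G : SimpleGraph V) {e : ℕ} (π : Fin (e + 1) ≃ V) :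
    Function.Injective (tau (rp G π)) ∧ ∀ u v, rp G π u v → tau (rp G π) v < tau (rp G π) u := by
  apply tau_spec
  refine ⟨fun v => e - (π.symm v).1, ?_, ?_⟩
  · intro u v h
    simp only at h
    have h1 := (π.symm u).2
    have h2 := (π.symm v).2
    apply π.symm.injective
    apply Fin.ext
    omega
  · intro u v h
    have h1 : (π.symm u).1 < (π.symm v).1 := h.2
    have h2 := (π.symm v).2
    simp only
    omega

/-- sorting key -/
noncomputable def key (G : SimpleGraph V) (φ : V → ℕ) (v : V) : Lex (ℕ × ℕ) :=
  toLex (φ v, tau (rc G φ) v)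

/-- strictness set of an ordering -/
def sp (G : SimpleGraph V) {e : ℕ} (π : Fin (e + 1) ≃ V) : Fin e → Prop :=
  fun k => tau (rp G π) (π k.succ) < tau (rp G π) (π k.castSucc)

theorem rc_eq_rp (G : SimpleGraph V) {e : ℕ} (π : Fin (e + 1) ≃ V) (φ : V → ℕ)
    (hφ : ∀ u v, G.Adj u v → φ u ≠ φ v) (hm : Monotone (φ ∘ π)) : rc G φ = rp G π := by
  funext u v
  apply propext
  unfold rc rp
  constructor
  · rintro ⟨h1, h2⟩
    refine ⟨h1, ?_⟩
    by_contra h3
    rw [not_lt] at h3
    have h4 := hm h3
    simp only [Function.comp, Equiv.apply_symm_apply] at h4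
    omega
  · rintro ⟨h1, h2⟩
    refine ⟨h1, ?_⟩
    have h4 := hm h2.le
    simp only [Function.comp, Equiv.apply_symm_apply] at h4
    exact lt_of_le_of_ne h4 (hφ u v h1)

theorem fiber_iff (G : SimpleGraph V) {e n : ℕ} (π : Fin (e + 1) ≃ V) (φ : V → ℕ) :
    (φ ∈ colo G n ∧ StrictMono (key G φ ∘ π)) ↔ φ ∘ π ∈ W e n (sp G π) := by
  rw [mem_colo, mem_W]
  constructor
  · rintro ⟨⟨h1, h2⟩, h3⟩
    have hm : Monotone (φ ∘ π) := by
      intro a b hab
      have h4 := h3.monotone hab
      simp only [Function.comp, key] at h4
      rw [Prod.Lex.le_iff] at h4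
      rcases h4 with h4 | h4
      · exact h4.le
      · exact h4.1.le
    have hr := rc_eq_rp G π φ h2 hm
    refine ⟨fun i => h1 _, fun k => ⟨hm (Fin.castSucc_lt_succ).le, fun hk => ?_⟩⟩
    have h4 := h3 (Fin.castSucc_lt_succ (i := k))
    simp only [Function.comp, key] at h4
    rw [Prod.Lex.lt_iff] at h4
    rcases h4 with h4 | h4
    · exact h4
    · exfalso
      have h5 := h4.2
      rw [hr] at h5
      exact absurd hk (not_lt.2 h5.le)
  · rintro ⟨h1, h2⟩
    have hm : Monotone (φ ∘ π) := Fin.monotone_iff_le_succ.2 (fun i => (h2 i).1)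
    obtain ⟨t1, t2⟩ := tau_rp G π
    have hlt : ∀ u v, G.Adj u v → π.symm u < π.symm v → φ u ≠ φ v := by
      intro u v hadj huv heq
      -- the colouring is constant between u and v
      have hstep : ∀ j : ℕ, (π.symm u).1 ≤ j → ∀ hj : j < e + 1, j ≤ (π.symm v).1 →
          tau (rp G π) u ≤ tau (rp G π) (π ⟨j, hj⟩) := by
        intro j hj
        induction j, hj using Nat.le_induction with
        | base =>
          intro hj _
          have : (⟨(π.symm u).1, hj⟩ : Fin (e + 1)) = π.symm u := rfl
          rw [this, Equiv.apply_symm_apply]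
        | succ j hj ih =>
          intro hj1 hjv
          refine (ih (by omega) (by omega)).trans ?_
          have hk : j < e := by omega
          have h3 := h2 ⟨j, hk⟩
          have h4 : ¬ sp G π ⟨j, hk⟩ := by
            intro h5
            have h6 := h3.2 h5
            have h7 : (φ ∘ π) (π.symm u) ≤ (φ ∘ π) (Fin.castSucc ⟨j, hk⟩) := hm hj
            have h8 : (φ ∘ π) (Fin.succ ⟨j, hk⟩) ≤ (φ ∘ π) (π.symm v) := hm hjv
            simp only [Function.comp, Equiv.apply_symm_apply] at h6 h7 h8
            omega
          rw [sp, not_lt] at h4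
          exact h4
      have h5 := hstep (π.symm v).1 huv.le (π.symm v).2 le_rfl
      have h6 : (⟨(π.symm v).1, (π.symm v).2⟩ : Fin (e + 1)) = π.symm v := rfl
      rw [h6, Equiv.apply_symm_apply] at h5
      have h7 := t2 u v ⟨hadj, huv⟩
      omega
    have hprop : ∀ u v, G.Adj u v → φ u ≠ φ v := by
      intro u v hadj
      rcases lt_trichotomy (π.symm u) (π.symm v) with h | h | h
      · exact hlt u v hadj h
      · exact absurd (π.symm.injective h) hadj.ne
      · exact (hlt v u hadj.symm h).symm
    refine ⟨⟨fun v => ?_, hprop⟩, ?_⟩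
    · have := h1 (π.symm v)
      simpa using this
    · have hr := rc_eq_rp G π φ hprop hm
      rw [Fin.strictMono_iff_lt_succ]
      intro k
      simp only [Function.comp, key]
      rw [Prod.Lex.lt_iff, hr]
      have h3 := h2 k
      rcases h3.1.lt_or_eq with h4 | h4
      · exact Or.inl h4
      · refine Or.inr ⟨h4, ?_⟩
        have h5 : ¬ sp G π k := fun h6 => absurd (h3.2 h6) (by rw [h4]; exact lt_irrefl _)
        rw [sp, not_lt] at h5
        refine lt_of_le_of_ne h5 fun h6 => ?_
        have h7 := π.injective (t1 h6)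
        exact absurd h7 (Fin.castSucc_lt_succ).ne

theorem exists_sort (G : SimpleGraph V) {e n : ℕ} (hV : Fintype.card V = e + 1) (φ : V → ℕ)
    (hφ : φ ∈ colo G n) : ∃! π : Fin (e + 1) ≃ V, StrictMono (key G φ ∘ π) := by
  classical
  rw [mem_colo] at hφ
  -- injectivity of the key
  have hinj : Function.Injective (key G φ) := by
    have hex : ∃ f : V → ℕ, Function.Injective f ∧ ∀ u v, rc G φ u v → f v < f u := by
      -- number the vertices by decreasing colour
      obtain ⟨g⟩ : Nonempty (V ≃ Fin (e + 1)) := ⟨Fintype.equivFinOfCardEq hV⟩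
      obtain ⟨M, hM⟩ : ∃ M, ∀ v, φ v ≤ M := ⟨n, fun v => (hφ.1 v).le⟩
      refine ⟨fun v => (M - φ v) * (e + 1) + (g v).1, ?_, ?_⟩
      · intro u v huv
        simp only at huv
        have h1 := congrArg (fun x => x % (e + 1)) huv
        simp only [Nat.mul_add_mod_self_right] at h1
        rw [Nat.mod_eq_of_lt (g u).2, Nat.mod_eq_of_lt (g v).2] at h1
        exact g.injective (Fin.ext h1)
      · intro u v huv
        have h1 := huv.2
        have h2 := hM v
        have h3 := (g v).2
        simp only
        have h4 : M - φ v + 1 ≤ M - φ u := by omega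
        calc (M - φ v) * (e + 1) + (g v).1 < (M - φ v) * (e + 1) + (e + 1) := by omega
          _ = (M - φ v + 1) * (e + 1) := by ring
          _ ≤ (M - φ u) * (e + 1) := Nat.mul_le_mul_right _ h4
          _ ≤ _ := Nat.le_add_right _ _
    have h1 := (tau_spec _ hex).1
    intro u v huv
    apply h1
    have h2 := congrArg (fun x : Lex (ℕ × ℕ) => (ofLex x).2) huv
    exact h2
  set S : Finset (Lex (ℕ × ℕ)) := univ.image (key G φ) with hS
  have hcard : S.card = e + 1 := by
    rw [hS, card_image_of_injective _ hinj, card_univ, hV]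
  have hex : ∀ k : Fin (e + 1), ∃ v, key G φ v = S.orderEmbOfFin hcard k := by
    intro k
    obtain ⟨v, _, hv⟩ := mem_image.1 (S.orderEmbOfFin_mem hcard k)
    exact ⟨v, hv⟩
  choose p hp using hex
  have hpinj : Function.Injective p := by
    intro a b hab
    apply (S.orderEmbOfFin hcard).injective
    rw [← hp, ← hp, hab]
  have hpb : Function.Bijective p := by
    rw [Fintype.bijective_iff_injective_and_card]
    exact ⟨hpinj, by rw [hV, Fintype.card_fin]⟩
  refine ⟨Equiv.ofBijective p hpb, ?_, ?_⟩
  · have : key G φ ∘ (Equiv.ofBijective p hpb) = S.orderEmbOfFin hcard := by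
      funext k
      exact hp k
    simp only
    rw [this]
    exact (S.orderEmbOfFin hcard).strictMono
  · intro π hπ
    have h1 := Finset.orderEmbOfFin_unique hcard (f := key G φ ∘ π)
      (fun x => mem_image_of_mem _ (mem_univ _)) hπ
    apply Equiv.ext
    intro k
    apply hinj
    have h2 := congrFun h1 k
    simp only [Function.comp] at h2
    rw [h2]
    exact (hp k).symm

open Classical in
/-- the number of proper colourings as a sum over all orderings -/
theorem card_colo (G : SimpleGraph V) {e : ℕ} (hV : Fintype.card V = e + 1) (n : ℕ) :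
    (colo G n).card = ∑ π : Fin (e + 1) ≃ V,
      (n + e - (univ.filter (sp G π)).card).choose (e + 1) := by
  have h1 : (colo G n).card = ∑ φ ∈ colo G n, ∑ π : Fin (e + 1) ≃ V,
      if StrictMono (key G φ ∘ π) then 1 else 0 := by
    rw [card_eq_sum_ones]
    refine sum_congr rfl fun φ hφ => ?_
    obtain ⟨π, hπ, huniq⟩ := exists_sort G hV φ hφ
    rw [sum_eq_single π]
    · rw [if_pos hπ]
    · intro π' _ hne
      rw [if_neg]
      intro h
      exact hne (huniq π' h)
    · intro h
      exact absurd (mem_univ _) h
  rw [h1, sum_comm]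
  refine sum_congr rfl fun π _ => ?_
  rw [← sum_filter, ← card_eq_sum_ones, ← card_W]
  refine card_nbij' (fun φ => φ ∘ π) (fun c => c ∘ π.symm) ?_ ?_ ?_ ?_
  · intro φ hφ
    rw [mem_coe, mem_filter] at hφ
    rw [mem_coe]
    exact (fiber_iff G π φ).1 hφ
  · intro c hc
    rw [mem_coe] at hc
    rw [mem_coe, mem_filter]
    rw [fiber_iff]
    have : (c ∘ π.symm) ∘ π = c := by
      funext k
      simp
    rw [this]
    exact hc
  · intro φ _
    funext v
    simp
  · intro c _
    funext k
    simp

/-- the numerator of the generating function of the numbers of proper colourings -/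
noncomputable def hs (G : SimpleGraph V) : PowerSeries ℤ :=
  PowerSeries.mk (fun n => ((colo G n).card : ℤ)) * (1 - PowerSeries.X) ^ (Fintype.card V + 1)

open Classical in
theorem hs_eq (G : SimpleGraph V) {e : ℕ} (hV : Fintype.card V = e + 1) :
    hs G = ∑ π : Fin (e + 1) ≃ V, PowerSeries.X ^ (1 + (univ.filter (sp G π)).card) := by
  have h1 : PowerSeries.mk (fun n => ((colo G n).card : ℤ)) =
      ∑ π : Fin (e + 1) ≃ V, PowerSeries.X ^ (1 + (univ.filter (sp G π)).card) *
        PowerSeries.mk (fun n => ((Nat.choose (e + 1 + n) (e + 1) : ℕ) : ℤ)) := by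
    ext n
    rw [PowerSeries.coeff_mk, card_colo G hV n, map_sum]
    push_cast
    refine sum_congr rfl fun π _ => ?_
    have hle : (univ.filter (sp G π)).card ≤ e := by
      have := card_le_univ (univ.filter (sp G π))
      simpa using this
    rw [PowerSeries.coeff_X_pow_mul']
    split_ifs with h
    · rw [PowerSeries.coeff_mk]
      congr 2
      omega
    · rw [Nat.choose_eq_zero_of_lt (by omega)]
      simp
  rw [hs, h1, sum_mul]
  refine sum_congr rfl fun π _ => ?_
  rw [mul_assoc, hV, PowerSeries.mk_add_choose_mul_one_sub_pow_eq_one, mul_one]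

theorem coeff_hs_nonneg (G : SimpleGraph V) (hV : 0 < Fintype.card V) (i : ℕ) :
    0 ≤ PowerSeries.coeff i (hs G) := by
  classical
  obtain ⟨e, he⟩ := Nat.exists_eq_succ_of_ne_zero hV.ne'
  rw [hs_eq G he, map_sum]
  refine sum_nonneg fun π _ => ?_
  rw [PowerSeries.coeff_X_pow]
  split_ifs <;> norm_num

theorem coeff_hs_zero_of_lt (G : SimpleGraph V) (hV : 0 < Fintype.card V) {i : ℕ}
    (hi : Fintype.card V < i) : PowerSeries.coeff i (hs G) = 0 := by
  classical
  obtain ⟨e, he⟩ := Nat.exists_eq_succ_of_ne_zero hV.ne'
  rw [hs_eq G he, map_sum]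
  refine sum_eq_zero fun π _ => ?_
  rw [PowerSeries.coeff_X_pow, if_neg]
  have := card_le_univ (univ.filter (sp G π))
  simp only [Fintype.card_fin] at this
  omega

end Pool.Agent.Q281.Chrom
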