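import Pool.Agent.Q281.Chrom.Pos

set_option autoImplicit false

/-!
# Deletion and contraction for the numerator of the chromatic generating function
-/

namespace Pool.Agent.Q281.Chrom

open Finset

set_option linter.unusedSectionVars false

variable {V : Type} [Fintype V] [DecidableEq V]

/-- contraction of the edge `u v`: remove `v`, join `u` to the neighbours of `v` -/
def contr (G : SimpleGraph V) (u v : V) : SimpleGraph {x : V // x ≠ v} where
  Adj x y := x ≠ y ∧ (G.Adj x y ∨ (x.1 = u ∧ G.Adj v y) ∨ (y.1 = u ∧ G.Adj x v))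
  symm := ⟨by
    rintro x y ⟨h1, h2⟩
    refine ⟨h1.symm, ?_⟩
    rcases h2 with h | h | h
    · exact Or.inl h.symm
    · exact Or.inr (Or.inr ⟨h.1, h.2.symm⟩)
    · exact Or.inr (Or.inl ⟨h.1, h.2.symm⟩)⟩
  loopless := ⟨fun x h => h.1 rfl⟩

theorem card_del (G : SimpleGraph V) (u v : V) (huv : G.Adj u v) (n : ℕ) :
    (colo (G.deleteEdges {s(u, v)}) n).card = (colo G n).card + (colo (contr G u v) n).card := by
  rw [← card_filter_add_card_filter_not (s := colo (G.deleteEdges {s(u, v)}) n)
    (fun φ => φ u ≠ φ v)]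
  congr 1
  · congr 1
    ext φ
    rw [mem_filter, mem_colo, mem_colo]
    constructor
    · rintro ⟨⟨h1, h2⟩, h3⟩
      refine ⟨h1, fun a b hab => ?_⟩
      by_cases he : s(a, b) = s(u, v)
      · rw [Sym2.eq_iff] at he
        rcases he with ⟨rfl, rfl⟩ | ⟨rfl, rfl⟩
        · exact h3
        · exact h3.symm
      · exact h2 a b (by rw [SimpleGraph.deleteEdges_adj]; exact ⟨hab, he⟩)
    · rintro ⟨h1, h2⟩
      refine ⟨⟨h1, fun a b hab => h2 a b ?_⟩, h2 u v huv⟩
      rw [SimpleGraph.deleteEdges_adj] at hab
      exact hab.1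
  · have hne : u ≠ v := huv.ne
    refine card_nbij' (fun φ => fun x => φ x.1)
      (fun ψ => fun x => if h : x = v then ψ ⟨u, hne⟩ else ψ ⟨x, h⟩) ?_ ?_ ?_ ?_
    · intro φ hφ
      rw [mem_coe, mem_filter, mem_colo, not_not] at hφ
      obtain ⟨⟨h1, h2⟩, h3⟩ := hφ
      rw [mem_coe, mem_colo]
      refine ⟨fun x => h1 _, fun x y hxy => ?_⟩
      obtain ⟨h4, h5⟩ := hxy
      have hx := x.2
      have hy := y.2
      rcases h5 with h5 | h5 | h5
      · refine h2 _ _ ?_
        rw [SimpleGraph.deleteEdges_adj]
        refine ⟨h5, ?_⟩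
        intro he
        rw [Set.mem_singleton_iff, Sym2.eq_iff] at he
        rcases he with he | he
        · exact hy he.2
        · exact hx he.1
      · beta_reduce
        rw [h5.1, h3]
        refine h2 _ _ ?_
        rw [SimpleGraph.deleteEdges_adj]
        refine ⟨h5.2, ?_⟩
        intro he
        rw [Set.mem_singleton_iff, Sym2.eq_iff] at he
        rcases he with he | he
        · exact hy he.2
        · exact h4 (Subtype.ext (h5.1.trans he.2.symm))
      · beta_reduce
        rw [h5.1, h3]
        refine h2 _ _ ?_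
        rw [SimpleGraph.deleteEdges_adj]
        refine ⟨h5.2, ?_⟩
        intro he
        rw [Set.mem_singleton_iff, Sym2.eq_iff] at he
        rcases he with he | he
        · exact h4 (Subtype.ext (he.1.trans h5.1.symm))
        · exact hx he.1
    · intro ψ hψ
      rw [mem_coe, mem_colo] at hψ
      obtain ⟨h1, h2⟩ := hψ
      rw [mem_coe, mem_filter, mem_colo, not_not]
      beta_reduce
      refine ⟨⟨fun x => ?_, fun a b hab => ?_⟩, ?_⟩
      · split_ifs
        · exact h1 _
        · exact h1 _
      · rw [SimpleGraph.deleteEdges_adj] at hab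
        obtain ⟨hab, he⟩ := hab
        rw [Set.mem_singleton_iff, Sym2.eq_iff] at he
        push Not at he
        by_cases ha : a = v
        · subst ha
          have hb : b ≠ a := hab.ne'
          rw [dif_pos rfl, dif_neg hb]
          refine h2 _ _ ⟨?_, Or.inr (Or.inl ⟨rfl, hab⟩)⟩
          intro h
          have h3 : u = b := congrArg Subtype.val h
          exact he.2 rfl h3.symm
        · by_cases hb : b = v
          · subst hb
            rw [dif_pos rfl, dif_neg ha]
            refine h2 _ _ ⟨?_, Or.inr (Or.inr ⟨rfl, hab⟩)⟩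
            intro h
            have h3 : a = u := congrArg Subtype.val h
            exact he.1 h3 rfl
          · rw [dif_neg ha, dif_neg hb]
            refine h2 _ _ ⟨?_, Or.inl hab⟩
            intro h
            exact hab.ne (congrArg Subtype.val h)
      · rw [dif_pos rfl, dif_neg hne]
    · intro φ hφ
      rw [mem_coe, mem_filter, not_not] at hφ
      funext x
      beta_reduce
      split_ifs with h
      · rw [h]; exact hφ.2
      · rfl
    · intro ψ _
      funext x
      beta_reduce
      rw [dif_neg x.2]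

theorem card_contr (v : V) : Fintype.card {x : V // x ≠ v} + 1 = Fintype.card V := by
  rw [Fintype.card_subtype_compl, Fintype.card_subtype_eq]
  have : 0 < Fintype.card V := Fintype.card_pos_iff.2 ⟨v⟩
  omega

theorem hs_del (G : SimpleGraph V) (u v : V) (huv : G.Adj u v) :
    hs G = hs (G.deleteEdges {s(u, v)}) - (1 - PowerSeries.X) * hs (contr G u v) := by
  have h1 : PowerSeries.mk (fun n => ((colo G n).card : ℤ)) =
      PowerSeries.mk (fun n => ((colo (G.deleteEdges {s(u, v)}) n).card : ℤ)) -
      PowerSeries.mk (fun n => ((colo (contr G u v) n).card : ℤ)) := by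
    ext n
    rw [map_sub, PowerSeries.coeff_mk, PowerSeries.coeff_mk, PowerSeries.coeff_mk,
      card_del G u v huv]
    push_cast
    ring
  have h2 : Fintype.card {x : V // x ≠ v} + 1 = Fintype.card V := card_contr v
  rw [hs, hs, hs, h1, ← h2]
  ring

/-- coefficients -/
noncomputable def hc (G : SimpleGraph V) (i : ℕ) : ℤ := PowerSeries.coeff i (hs G)

theorem hc_zero (G : SimpleGraph V) (u v : V) (huv : G.Adj u v) :
    hc G 0 = hc (G.deleteEdges {s(u, v)}) 0 - hc (contr G u v) 0 := by
  unfold hc
  rw [hs_del G u v huv, map_sub, sub_mul, map_sub, one_mul, PowerSeries.coeff_zero_X_mul, sub_zero]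

theorem hc_succ (G : SimpleGraph V) (u v : V) (huv : G.Adj u v) (i : ℕ) :
    hc G (i + 1) = hc (G.deleteEdges {s(u, v)}) (i + 1) - hc (contr G u v) (i + 1) +
      hc (contr G u v) i := by
  unfold hc
  rw [hs_del G u v huv, map_sub, sub_mul, map_sub, one_mul, PowerSeries.coeff_succ_X_mul]
  ring

/-- the partial sum difference -/
noncomputable def SS (G : SimpleGraph V) (i : ℕ) : ℤ :=
  ∑ j ∈ range i, hc G (Fintype.card V - j) - ∑ j ∈ range (i + 1), hc G j

theorem low_sum (G : SimpleGraph V) (u v : V) (huv : G.Adj u v) (i : ℕ) :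
    ∑ j ∈ range (i + 1), hc G j =
      ∑ j ∈ range (i + 1), hc (G.deleteEdges {s(u, v)}) j - hc (contr G u v) i := by
  induction i with
  | zero => simp [hc_zero G u v huv]
  | succ i ih =>
    rw [sum_range_succ, ih, sum_range_succ _ (i + 1), hc_succ G u v huv]
    ring

theorem high_sum (G : SimpleGraph V) (u v : V) (huv : G.Adj u v) (i : ℕ)
    (hi : i ≤ Fintype.card V) :
    ∑ j ∈ range i, hc G (Fintype.card V - j) =
      ∑ j ∈ range i, hc (G.deleteEdges {s(u, v)}) (Fintype.card V - j)
        - hc (contr G u v) (Fintype.card V) + hc (contr G u v) (Fintype.card V - i) := by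
  induction i with
  | zero => simp
  | succ i ih =>
    rw [sum_range_succ, ih (by omega), sum_range_succ]
    obtain ⟨k, hk⟩ : ∃ k, Fintype.card V - i = k + 1 := ⟨Fintype.card V - i - 1, by omega⟩
    have hk2 : Fintype.card V - (i + 1) = k := by omega
    rw [hk, hk2, hc_succ G u v huv]
    ring

theorem SS_del (G : SimpleGraph V) (u v : V) (huv : G.Adj u v) (i : ℕ)
    (hi : i ≤ Fintype.card V) :
    SS G i = SS (G.deleteEdges {s(u, v)}) i + hc (contr G u v) (Fintype.card V - i) +
      hc (contr G u v) i := by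
  have hpos : 0 < Fintype.card {x : V // x ≠ v} := Fintype.card_pos_iff.2 ⟨⟨u, huv.ne⟩⟩
  have hz : hc (contr G u v) (Fintype.card V) = 0 := by
    apply coeff_hs_zero_of_lt _ hpos
    have := card_contr v
    omega
  rw [SS, SS, low_sum G u v huv, high_sum G u v huv i hi, hz]
  ring

/-! ### Eulerian numbers -/

/-- numerator for the edgeless graph -/
noncomputable def eul (d : ℕ) : PowerSeries ℤ :=
  PowerSeries.mk (fun n => ((n ^ d : ℕ) : ℤ)) * (1 - PowerSeries.X) ^ (d + 1)

open PowerSeries in
theorem eul_succ (d : ℕ) : eul (d + 1) =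
    X * (1 - X) * (PowerSeries.derivative ℤ (eul d)) + ((d + 1 : ℕ) : ℤ⟦X⟧) * X * eul d := by
  have h1 : PowerSeries.mk (fun n => ((n ^ (d + 1) : ℕ) : ℤ)) =
      X * PowerSeries.derivative ℤ (PowerSeries.mk (fun n => ((n ^ d : ℕ) : ℤ))) := by
    ext n
    cases n with
    | zero => simp
    | succ n =>
      rw [PowerSeries.coeff_mk, PowerSeries.coeff_succ_X_mul, PowerSeries.coeff_derivative,
        PowerSeries.coeff_mk]
      push_cast
      ring
  rw [eul, eul, h1, Derivation.leibniz, Derivation.leibniz_pow]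
  simp only [smul_eq_mul, map_sub, Nat.add_sub_cancel, nsmul_eq_mul]
  have h2 : (PowerSeries.derivative ℤ) (1 : ℤ⟦X⟧) = 0 := Derivation.map_one_eq_zero _
  have h3 : (PowerSeries.derivative ℤ) (X : ℤ⟦X⟧) = 1 := by
    ext n
    rw [PowerSeries.coeff_derivative, PowerSeries.coeff_X, PowerSeries.coeff_one]
    cases n with
    | zero => simp
    | succ n => simp
  rw [h2, h3]
  ring


theorem eul_zero_coeff (d : ℕ) (hd : 0 < d) : PowerSeries.coeff 0 (eul d) = 0 := by
  obtain ⟨e, rfl⟩ := Nat.exists_eq_succ_of_ne_zero hd.ne'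
  rw [Nat.succ_eq_add_one, eul_succ, mul_assoc, mul_assoc, map_add]
  rw [PowerSeries.coeff_zero_X_mul, mul_left_comm, PowerSeries.coeff_zero_X_mul, add_zero]

theorem eul_coeff_succ (d j : ℕ) : PowerSeries.coeff (j + 1) (eul (d + 1)) =
    (j + 1) * PowerSeries.coeff (j + 1) (eul d) + ((d : ℤ) + 1 - j) * PowerSeries.coeff j (eul d) := by
  rw [eul_succ, mul_assoc, mul_assoc, map_add, PowerSeries.coeff_succ_X_mul, mul_left_comm,
    PowerSeries.coeff_succ_X_mul, sub_mul, one_mul, map_sub, PowerSeries.coeff_derivative]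
  have h1 : PowerSeries.coeff j (((d + 1 : ℕ) : PowerSeries ℤ) * eul d) =
      ((d + 1 : ℕ) : ℤ) * PowerSeries.coeff j (eul d) := by
    rw [← map_natCast (PowerSeries.C (R := ℤ)) (d + 1), PowerSeries.coeff_C_mul]
  rw [h1]
  cases j with
  | zero =>
    rw [PowerSeries.coeff_zero_X_mul]
    push_cast
    ring
  | succ j =>
    rw [PowerSeries.coeff_succ_X_mul, PowerSeries.coeff_derivative]
    push_cast
    ring

theorem eul_symm (d : ℕ) : ∀ j, j ≤ d + 2 →
    PowerSeries.coeff j (eul (d + 1)) = PowerSeries.coeff (d + 2 - j) (eul (d + 1)) := by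
  have h0 : eul 0 = 1 := by
    rw [eul]
    simp only [pow_zero, zero_add, pow_one, Nat.cast_one]
    exact PowerSeries.mk_one_mul_one_sub_eq_one ℤ
  induction d with
  | zero =>
    intro j hj
    have h1 : ∀ j, PowerSeries.coeff j (eul (0 + 1)) = if j = 1 then 1 else 0 := by
      intro j
      cases j with
      | zero => rw [eul_zero_coeff 1 one_pos]; simp
      | succ j =>
        rw [eul_coeff_succ, h0, PowerSeries.coeff_one, PowerSeries.coeff_one]
        cases j with
        | zero => simp
        | succ j => simp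
    rw [h1, h1]
    have : j = 0 ∨ j = 1 ∨ j = 2 := by omega
    rcases this with rfl | rfl | rfl <;> simp
  | succ d ih =>
    -- values at the two ends
    have hend : PowerSeries.coeff (d + 1 + 2) (eul (d + 1 + 1)) = 0 := by
      rw [show d + 1 + 2 = (d + 1 + 1) + 1 by ring, eul_coeff_succ]
      have h2 : PowerSeries.coeff (d + 1 + 1 + 1) (eul (d + 1)) = 0 := by
        -- degree bound, by induction
        have hdeg : ∀ e k, e < k → PowerSeries.coeff k (eul e) = 0 := by
          intro e
          induction e with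
          | zero =>
            intro k hk
            rw [h0, PowerSeries.coeff_one, if_neg (by omega)]
          | succ e ihe =>
            intro k hk
            obtain ⟨k', rfl⟩ := Nat.exists_eq_succ_of_ne_zero (by omega : k ≠ 0)
            rw [Nat.succ_eq_add_one, eul_coeff_succ, ihe (k' + 1) (by omega), ihe k' (by omega)]
            ring
        exact hdeg _ _ (by omega)
      have h3 := ih (d + 2) le_rfl
      rw [Nat.sub_self, eul_zero_coeff (d + 1) (by omega)] at h3
      have h4 : PowerSeries.coeff (d + 1 + 1) (eul (d + 1)) = 0 := h3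
      rw [h2, h4]
      ring
    intro j hj
    rcases Nat.eq_zero_or_pos j with rfl | hj0
    · rw [Nat.sub_zero, hend, eul_zero_coeff _ (by omega)]
    rcases Nat.lt_or_ge j (d + 1 + 2) with hj1 | hj1
    · obtain ⟨k, rfl⟩ := Nat.exists_eq_succ_of_ne_zero hj0.ne'
      obtain ⟨l, hl⟩ : ∃ l, d + 1 + 2 - (k + 1) = l + 1 := ⟨d + 1 + 2 - (k + 1) - 1, by omega⟩
      rw [Nat.succ_eq_add_one, hl, eul_coeff_succ (d + 1) k, eul_coeff_succ (d + 1) l]
      have h5 := ih k (by omega)
      have h6 := ih (k + 1) (by omega)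
      have h7 : d + 2 - k = l + 1 := by omega
      have h8 : d + 2 - (k + 1) = l := by omega
      rw [h7] at h5
      rw [h8] at h6
      rw [h5, h6]
      have h9 : (k : ℤ) + l = d + 1 := by
        have : k + l = d + 1 := by omega
        exact_mod_cast this
      have h10 : (k : ℤ) = d + 1 - l := by linarith
      rw [h10]
      push_cast
      ring
    · have : j = d + 1 + 2 := by omega
      subst this
      rw [Nat.sub_self, hend, eul_zero_coeff _ (by omega)]

theorem hs_bot : hs (⊥ : SimpleGraph V) = eul (Fintype.card V) := by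
  classical
  rw [hs, eul]
  congr 2
  funext n
  have : colo (⊥ : SimpleGraph V) n = Fintype.piFinset (fun _ => range n) := by
    ext φ
    simp [mem_colo, Fintype.mem_piFinset]
  rw [this, Fintype.card_piFinset]
  simp

theorem SS_bot (hV : 0 < Fintype.card V) (i : ℕ) (hi : i ≤ Fintype.card V) :
    SS (⊥ : SimpleGraph V) i = 0 := by
  obtain ⟨e, he⟩ := Nat.exists_eq_succ_of_ne_zero hV.ne'
  rw [SS, sum_range_succ' _ i]
  unfold hc
  rw [hs_bot, he, Nat.succ_eq_add_one, eul_zero_coeff (e + 1) (by omega), add_zero, sub_eq_zero]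
  refine sum_congr rfl fun j hj => ?_
  rw [mem_range] at hj
  rw [eul_symm e (j + 1) (by omega)]
  congr 1
  congr 1
  omega

/-- **Main inequality.** -/
theorem SS_nonneg (hV : 0 < Fintype.card V) (G : SimpleGraph V) (i : ℕ)
    (hi : i ≤ Fintype.card V) : 0 ≤ SS G i := by
  induction G using WellFoundedLT.induction with
  | ind G ih =>
    by_cases hG : G = ⊥
    · rw [hG, SS_bot hV i hi]
    · obtain ⟨u, v, huv⟩ := SimpleGraph.ne_bot_iff_exists_adj.1 hG
      rw [SS_del G u v huv i hi]
      have hlt : G.deleteEdges {s(u, v)} < G := by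
        refine lt_of_le_of_ne (SimpleGraph.deleteEdges_le _) fun h => ?_
        have h1 : (G.deleteEdges {s(u, v)}).Adj u v := by rw [h]; exact huv
        rw [SimpleGraph.deleteEdges_adj] at h1
        exact h1.2 rfl
      have h1 := ih _ hlt
      have hpos : 0 < Fintype.card {x : V // x ≠ v} := Fintype.card_pos_iff.2 ⟨⟨u, huv.ne⟩⟩
      have h2 := coeff_hs_nonneg (contr G u v) hpos (Fintype.card V - i)
      have h3 := coeff_hs_nonneg (contr G u v) hpos i
      unfold hc
      linarith

/-- connection with Mathlib colourings -/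
theorem card_coloring (G : SimpleGraph V) (n : ℕ) :
    Nat.card (G.Coloring (Fin n)) = (colo G n).card := by
  rw [← Fintype.card_coe, ← Nat.card_eq_fintype_card]
  refine Nat.card_congr ⟨fun C => ⟨fun v => (C v).1, ?_⟩,
    fun φ => SimpleGraph.Coloring.mk (fun v => ⟨φ.1 v, (mem_colo.1 φ.2).1 v⟩) ?_, ?_, ?_⟩
  · rw [mem_colo]
    refine ⟨fun v => (C v).2, fun u v huv h => ?_⟩
    exact C.valid huv (Fin.ext h)
  · intro u v huv h
    exact (mem_colo.1 φ.2).2 u v huv (congrArg Fin.val h)
  · intro C
    rfl
  · intro φ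
    rfl

end Pool.Agent.Q281.Chrom
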